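import Pool.Agent.H40.PRK.EQ

/-!
# ULM. The matrix of Ulam in the first case (MP_e37c09_lc)
-/

open Ordinal Cardinal Order Set
open scoped ZFSet

universe u

namespace Pool.Agent.H43.SD

open _root_.HD HD.PRK Pool.Agent.H40.PRK

/-- the set of the `a` such that the entry `(n, a)` of the matrix is positive at `κ` -/
def An (en : Ordinal.{u} → ZFSet.{u}) (γ κ n : Ordinal.{u}) : Set Ordinal.{u} :=
  {a | Pos HD.NF.w0 κ {b | Rn en γ n b a}}

theorem an_do {en : Ordinal.{u} → ZFSet.{u}} (hE : DO fun w => w 0 ∈ E2 en (w 2) (w 1))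
    (γ κ n : Ordinal.{u}) : DO fun w => w 0 ∈ An en γ κ n := by
  have g := fun i j => (rn_dr hE γ n).s2 (X := fun x y => Rn en γ n x y) i j
  have h1 : DO fun w => Pos (w 0) (w 1) {b | Rn en γ n b (w 2)} :=
    HD.All.da 0 1 (fun b w => Rn en γ n b (w 2)) (g 0 3)
  have h2 : DO fun w => Pos HD.NF.w0 (w 0) {b | Rn en γ n b (w 1)} :=
    DO.sub (R := fun x w => Pos x (w 0) {b | Rn en γ n b (w 1)}) HD.NF.w0 h1
  exact DO.sub (R := fun x w => Pos HD.NF.w0 x {b | Rn en γ n b (w 0)}) κ h2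

/-- the partition -/
def Sp (en : Ordinal.{u} → ZFSet.{u}) (γ κ n b i : Ordinal.{u}) : Prop :=
  ∃ a, nth (An en γ κ n) i a ∧ Rn en γ n b a

theorem sp_dr {en : Ordinal.{u} → ZFSet.{u}} (hE : DO fun w => w 0 ∈ E2 en (w 2) (w 1))
    (γ κ n : Ordinal.{u}) : DR (Sp en γ κ n) := by
  have g := fun i j => (rn_dr hE γ n).s2 (X := fun x y => Rn en γ n x y) i j
  have h1 : DO fun w => nth (An en γ κ n) (w 0) (w 1) :=
    HD.All.db (fun a _ => a ∈ An en γ κ n) (an_do hE γ κ n)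
  have h2 := fun i j => h1.s2 (X := fun x y => nth (An en γ κ n) x y) i j
  exact DO.ex (R := fun a w => nth (An en γ κ n) (w 1) a ∧ Rn en γ n (w 0) a)
    ((h2 2 0).and (g 1 0))

/-- ULM. In the first case there are partitions into any smaller number of stationary sets. -/
theorem pf_ULM : ∀ δ : Ordinal.{u}, CaseA δ → ∀ L : Cardinal.{u}, ℵ₀ ≤ L → ¬ L.IsRegular →
    δ < L.ord → ∀ D < L, ¬ NS D.ord HD.NF.w0 (succ L).ord := by
  intro δ hA γ hγ hns hδ D hD hNS
  obtain ⟨en, hen⟩ := HD.All.en.{u}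
  obtain ⟨-, hE2, -, -⟩ := HD.All.ea.{u} en hen
  have hreg : (succ γ).IsRegular := Cardinal.isRegular_succ hγ
  have hγK : γ.ord < (succ γ).ord := Cardinal.ord_lt_ord.2 (Order.lt_succ γ)
  have hlim : IsSuccLimit (succ γ).ord := isSuccLimit_ord hreg.aleph0_le
  have hunc : ℵ₀ < succ γ := hγ.trans_lt (Order.lt_succ γ)
  have hgood : ∀ β, γ.ord < β → β < (succ γ).ord → ∃ c, Good en γ.ord β c := by
    intro β h1 h2
    obtain ⟨f, hf, hfun, honto⟩ := (hA γ hγ hns hδ).2 β h1 h2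
    obtain ⟨c, hc⟩ := (hen.od f).1 hf.od
    refine ⟨c, ?_, ?_⟩
    · intro a ha
      obtain ⟨w, hw, huw⟩ := hfun.2 a.toZFSet (toZFSet_mem_toZFSet_iff.2 ha)
      have h3 := hfun.1 hw
      rw [ZFSet.pair_mem_prod] at h3
      obtain ⟨b, hb, rfl⟩ := mem_toZFSet_iff.1 h3.2
      refine ⟨b, hb, ?_, ?_⟩
      · show ZFSet.pair a.toZFSet b.toZFSet ∈ en c
        rw [hc]
        exact hw
      · intro b' hb'
        have h4 : ZFSet.pair a.toZFSet b'.toZFSet ∈ en c := hb'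
        rw [hc] at h4
        exact toZFSet_injective (huw _ h4)
    · intro b hb
      obtain ⟨a, ha, hab⟩ := honto b hb
      refine ⟨a, ha, ?_⟩
      show ZFSet.pair a.toZFSet b.toZFSet ∈ en c
      rw [hc]
      exact hab
  have hmin : ∀ β, γ.ord < β → β < (succ γ).ord → ∃ c, Good en γ.ord β c ∧
      ∀ c' < c, ¬ Good en γ.ord β c' := by
    intro β h1 h2
    obtain ⟨c, hc, hm⟩ := WellFounded.has_min (wellFounded_lt (α := Ordinal.{u}))
      {c | Good en γ.ord β c} (hgood β h1 h2)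
    exact ⟨c, hc, fun c' hc' h => hm c' h hc'⟩
  have hun : ∀ β c c', (Good en γ.ord β c ∧ ∀ d < c, ¬ Good en γ.ord β d) →
      (Good en γ.ord β c' ∧ ∀ d < c', ¬ Good en γ.ord β d) → c = c' := by
    intro β c c' h h'
    rcases lt_trichotomy c c' with h1 | h1 | h1
    · exact absurd h.1 (h'.2 c h1)
    · exact h1
    · exact absurd h'.1 (h.2 c' h1)
  -- one row of the matrix consists of disjoint sets
  have hR2 : ∀ n < γ.ord, ∀ β b b', Rn en γ.ord n β b → Rn en γ.ord n β b' → b = b' := by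
    intro n hn β b b' h h'
    rcases h with ⟨h1, h2⟩ | ⟨h1, c, h2, h3⟩
    · rcases h' with ⟨_, h2'⟩ | ⟨h1', _⟩
      · rw [h2, h2']
      · exact absurd h1 (not_le.2 h1')
    · rcases h' with ⟨h1', _⟩ | ⟨_, c', h2', h3'⟩
      · exact absurd h1' (not_le.2 h1)
      · have e := hun β c c' h2 h2'
        subst e
        obtain ⟨d, -, -, hd⟩ := h2.1.1 n hn
        rw [hd b h3, hd b' h3']
  -- one column covers a final segment
  have hcov : ∀ a < (succ γ).ord, ∃ n < γ.ord, a ∈ An en γ.ord (succ γ).ord n := by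
    intro a ha
    by_contra hno
    push Not at hno
    refine HD.All.va HD.NF.w0 (succ γ).ord (by rw [hreg.cof_ord]; exact hunc) γ.ord
      (by rw [Cardinal.card_ord, hreg.cof_ord]; exact Order.lt_succ γ)
      (fun n => {b | Rn en γ.ord n b a}) (fun n hn => hno n hn) ?_
    intro C hC
    have hC' : Clb (succ γ).ord (C ∩ Ioi (max a γ.ord)) := by
      refine ⟨fun x hx => ?_, fun x hx hx0 h => ?_⟩
      · obtain ⟨b, hb, hb1, hb2⟩ := hC.unb (max x (max a γ.ord)) (max_lt hx (max_lt ha hγK))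
        exact ⟨b, hb, (le_max_left _ _).trans_lt hb1, hb2,
          Set.mem_Ioi.2 ((le_max_right _ _).trans_lt hb1)⟩
      · refine ⟨hC.cls x hx hx0 fun y hy => ?_, ?_⟩
        · obtain ⟨z, hz, hyz, hzC⟩ := h y hy
          exact ⟨z, hz, hyz, hzC.1⟩
        · obtain ⟨z, hz, -, hzC⟩ := h 0 hx0
          exact lt_trans hzC.2 hz
    obtain ⟨b, hb, hbC, -, hbf⟩ := HD.All.vc ℵ₀ (succ γ).ord Cardinal.isRegular_aleph0
      (by rw [hreg.cof_ord]; exact hunc) _ hC'
    have hba : max a γ.ord < b := hbC.2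
    have hγb : γ.ord < b := (le_max_right _ _).trans_lt hba
    obtain ⟨c, hc, hm⟩ := hmin b hγb hb
    obtain ⟨n, hn, hnE⟩ := hc.2 a ((le_max_left _ _).trans_lt hba)
    exact ⟨b, hb, hbC.1, ⟨n, hn, Or.inr ⟨hγb, c, ⟨hc, hm⟩, hnE⟩⟩, hbf⟩
  -- one row has unboundedly many positive entries
  have hrow : ∃ n < γ.ord, ∀ β < (succ γ).ord, ∃ a, β < a ∧ a < (succ γ).ord ∧
      a ∈ An en γ.ord (succ γ).ord n := by
    by_contra hno
    push Not at hno
    choose! η hη hη2 using hno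
    obtain ⟨s, hs, hsb⟩ := Pool.Agent.H3.HD.exists_bound (ρ := (succ γ).ord) (τ := γ.ord)
      (by rw [Cardinal.card_ord, hreg.cof_ord]; exact Order.lt_succ γ) η (fun n hn => hη n hn)
    have hs1 : s + 1 < (succ γ).ord := hlim.add_one_lt hs
    obtain ⟨n, hn, hna⟩ := hcov (s + 1) hs1
    exact hη2 n hn (s + 1) ((hsb n hn).trans_lt (lt_add_one _)) hs1 hna
  obtain ⟨n, hn, hrow⟩ := hrow
  obtain ⟨-, hv2, -, hv4⟩ := HD.All.vh.{u} (An en γ.ord (succ γ).ord n)
  have hnth : ∀ i < D.ord, ∃ a, nth (An en γ.ord (succ γ).ord n) i a := by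
    rcases hv4 D.ord with h | h
    · exfalso
      obtain ⟨τ, hτ, e, he⟩ := h
      have hDK : D < succ γ := hD.trans (Order.lt_succ γ)
      obtain ⟨s, hs, hsb⟩ := Pool.Agent.H3.HD.exists_bound (ρ := (succ γ).ord) (τ := τ)
        (by rw [hreg.cof_ord]; exact (lt_ord.1 hτ).trans hDK)
        (fun i => if e i < (succ γ).ord then e i else 0) (fun i _ => by
          by_cases h : e i < (succ γ).ord
          · rw [if_pos h]
            exact h
          · rw [if_neg h]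
            exact hlim.bot_lt)
      obtain ⟨a, ha1, ha2, ha3⟩ := hrow s hs
      obtain ⟨i, hi, rfl⟩ := he a ha3
      have := hsb i hi
      rw [if_pos ha2] at this
      exact absurd ha1 (not_lt.2 this)
    · exact h
  refine hNS (Sp en γ.ord (succ γ).ord n) (sp_dr hE2 _ _ _) ?_ ?_
  · rintro b i i' ⟨a, ha, hb⟩ ⟨a', ha', hb'⟩
    have e := hR2 n hn b a a' hb hb'
    subst e
    rcases lt_trichotomy i i' with h | h | h
    · exact absurd ((hv2 i i' a a ha ha').1 h) (lt_irrefl _)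
    · exact h
    · exact absurd ((hv2 i' i a a ha' ha).1 h) (lt_irrefl _)
  · intro i hi
    obtain ⟨a, ha⟩ := hnth i hi
    intro C hC
    obtain ⟨b, hb, hbC, hbR, hbf⟩ := ha.1 C hC
    exact ⟨b, hb, hbC, ⟨a, ha, hbR⟩, hbf⟩

end Pool.Agent.H43.SD
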