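import Pool.Agent.H98.SD.Targets
import Pool.Agent.H43.SD.ULM
import Pool.Agent.H45.CF.FO

/-!
# CAS. Partitions in the first case (MP_e37c09_lc)
-/

open Ordinal Cardinal Order Set
open scoped ZFSet

universe u

namespace Pool.Agent.H43.SD

open _root_.HD HD.SD

/-- ULM. -/
theorem pf_ULM' : HD.SD.T_ULM.{u} := pf_ULM

/-- CAS. -/
theorem pf_CAS (hULM : HD.SD.T_ULM.{u}) (hCO2 : HD.SD.T_CO2.{u}) : HD.SD.T_CAS.{u} := by
  intro δ hδ hA L hL en hen x m hm
  obtain ⟨D, hD, -, -, hD0⟩ := Pool.Agent.H45.CF.ext_card hδ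
  have hDL : D < L := by
    have h := hL.lt
    rw [hD] at h
    exact Cardinal.ord_lt_ord.1 h
  have hL0 : ℵ₀ < L := hD0.trans hDL
  have hLr : ¬ L.IsRegular := fun h => by
    have h1 := hL.cof
    rw [h.cof_ord] at h1
    exact hL0.ne' h1
  have hmL : m.card < L := lt_ord.1 hm
  have hsL : succ m.card < L :=
    (Order.succ_le_of_lt (Cardinal.cantor m.card)).trans_lt (hL.lim _ hmL)
  have hms : m < (succ m.card).ord := lt_ord.2 (Order.lt_succ _)
  have h := hULM δ hA L hL0.le hLr hL.lt (succ m.card) hsL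
  unfold NS at h
  push Not at h
  obtain ⟨s, hs, hsf, hsp⟩ := h
  obtain ⟨c, hc⟩ := hCO2 en hen (fun _ w => s (w 0) (w 1)) (DX.o hs) (succ x.rank)
    (succ L).ord m (fun _ => 0)
  have hx : x ∈ V_ (succ x.rank) := ZFSet.mem_vonNeumann.2 (Order.lt_succ _)
  refine ⟨c, fun i hi C hC => ?_, fun b i i' h h' => ?_⟩
  · obtain ⟨b, hb, hbC, hbs, hbf⟩ := hsp i (hi.trans hms) C hC
    exact ⟨b, hb, hbC, (hc x hx b i).2 ⟨hb, hi, hbs⟩, hbf⟩
  · exact hsf b i i' ((hc x hx b i).1 h).2.2 ((hc x hx b i').1 h').2.2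

end Pool.Agent.H43.SD
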