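import Pool.Agent.H98.SD.TargetsU
import Pool.Agent.H98.SD.Lib

/-!
# ULX. The matrix of Ulam with a parameter (MP_e37c09_lc)
-/

open Ordinal Cardinal Order Set
open scoped ZFSet

universe u

namespace Pool.Agent.H43.SD.UX

open _root_.HD HD.SD

/-- the family with code `c` gives a map from a subset of `L` onto `b` -/
def Gx (en : Ordinal.{u} → ZFSet.{u}) (l : Ordinal.{u}) (x : ZFSet.{u}) (b c : Ordinal.{u}) :
    Prop :=
  (∀ a < b, ∃ ξ < l, a ∈ Sc2 en x c ξ) ∧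
    ∀ ξ < l, ∀ a < b, ∀ a' < b, a ∈ Sc2 en x c ξ → a' ∈ Sc2 en x c ξ → a = a'

/-- the relation `e_b ξ = a` -/
def Rx (en : Ordinal.{u} → ZFSet.{u}) (l : Ordinal.{u}) (x : ZFSet.{u}) (b ξ a : Ordinal.{u}) :
    Prop :=
  ∃ c, (Gx en l x b c ∧ ∀ c' < c, ¬ Gx en l x b c') ∧ a < b ∧ a ∈ Sc2 en x c ξ

/-- the positive entries of the row `ξ` -/
def Ax (en : Ordinal.{u} → ZFSet.{u}) (l μ κ : Ordinal.{u}) (x : ZFSet.{u}) (ξ : Ordinal.{u}) :
    Set Ordinal.{u} := {a | Pos μ κ {b | Rx en l x b ξ a}}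

/-- the family of disjoint positive sets -/
def Px (en : Ordinal.{u} → ZFSet.{u}) (l μ κ : Ordinal.{u}) (x : ZFSet.{u})
    (w : ℕ → Ordinal.{u}) : Prop :=
  ∃ a, nth (Ax en l μ κ x (w 2)) (w 1) a ∧ Rx en l x (w 0) (w 2) a

section dx

variable {en : Ordinal.{u} → ZFSet.{u}}

theorem sc_dx (h : T_DXS.{u}) (hen : EN en) (i j k : ℕ) :
    DX fun x w => w i ∈ Sc2 en x (w j) (w k) :=
  (h en hen).2.ren fun n => if n = 0 then i else if n = 1 then j else k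

theorem gx_dx (h : T_DXS.{u}) (hen : EN en) (l : Ordinal.{u}) (i j : ℕ) :
    DX fun x w => Gx en l x (w i) (w j) := by
  have g := fun i j k => sc_dx h hen i j k
  refine DX.and ?_ ?_
  · refine DX.allLt (S := fun a x w => ∃ ξ < l, a ∈ Sc2 en x (w j) ξ) i ?_
    exact DX.exLtc (S := fun ξ x w => w 0 ∈ Sc2 en x (w (j + 1)) ξ) l (g 1 (j + 2) 0)
  · refine DX.allLtc (S := fun ξ x w => ∀ a < w i, ∀ a' < w i, a ∈ Sc2 en x (w j) ξ →
      a' ∈ Sc2 en x (w j) ξ → a = a') l ?_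
    refine DX.allLt (S := fun a x w => ∀ a' < w (i + 1), a ∈ Sc2 en x (w (j + 1)) (w 0) →
      a' ∈ Sc2 en x (w (j + 1)) (w 0) → a = a') (i + 1) ?_
    refine DX.allLt (S := fun a' x w => w 0 ∈ Sc2 en x (w (j + 2)) (w 1) →
      a' ∈ Sc2 en x (w (j + 2)) (w 1) → w 0 = a') (i + 2) ?_
    exact (g 1 (j + 3) 2).imp ((g 0 (j + 3) 2).imp (DX.o (DO.eq 1 0)))

theorem rx_dx (h : T_DXS.{u}) (hen : EN en) (l : Ordinal.{u}) (i j k : ℕ) :
    DX fun x w => Rx en l x (w i) (w j) (w k) := by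
  refine DX.ex (S := fun c x w => (Gx en l x (w i) c ∧ ∀ c' < c, ¬ Gx en l x (w i) c') ∧
    w k < w i ∧ w k ∈ Sc2 en x c (w j)) ?_
  refine DX.and (DX.and (gx_dx h hen l (i + 1) 0) ?_) (DX.and (DX.o (DO.lt _ _))
    (sc_dx h hen (k + 1) 0 (j + 1)))
  exact DX.allLt (S := fun c' x w => ¬ Gx en l x (w (i + 1)) c') 0 (gx_dx h hen l (i + 2) 0).not

theorem ax_dx (h : T_DXS.{u}) (h' : T_DXP.{u}) (hen : EN en) (l μ κ : Ordinal.{u}) :
    DX fun x w => w 0 ∈ Ax en l μ κ x (w 1) :=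
  dx_pos h' (P := fun x w => Rx en l x (w 0) (w 2) (w 1)) (rx_dx h hen l 0 2 1) μ κ

theorem px_dx (h : T_DXS.{u}) (h' : T_DXP.{u}) (h'' : T_DXN.{u}) (hen : EN en)
    (l μ κ : Ordinal.{u}) : DX (Px en l μ κ) := by
  refine DX.ex (S := fun a x w => nth (Ax en l μ κ x (w 2)) (w 1) a ∧
    Rx en l x (w 0) (w 2) a) ?_
  exact DX.and (dx_nth h'' (ax_dx h h' hen l μ κ) 2 0 fun _ => 3) (rx_dx h hen l 1 3 0)

end dx

/-- ULX. -/
theorem pf_ULX (h1 : T_DXS.{u}) (h2 : T_DXP.{u}) (h3 : T_DXN.{u}) (h4 : T_ODX.{u}) :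
    T_ULX.{u} := by
  intro en hen L hL M hM hML x hx
  have hreg : (succ L).IsRegular := Cardinal.isRegular_succ hL.le
  have hLK : L.ord < (succ L).ord := Cardinal.ord_lt_ord.2 (Order.lt_succ L)
  have hlim : IsSuccLimit (succ L).ord := isSuccLimit_ord hreg.aleph0_le
  have hunc : ℵ₀ < succ L := hL.trans (Order.lt_succ L)
  obtain ⟨-, -, hodx, -⟩ := h4 en hen x (succ L).ord
  have hgood : ∀ β, L.ord < β → β < (succ L).ord → ∃ c, Gx en L.ord x β c := by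
    intro β hβ hβ'
    obtain ⟨f, hf, hfun, honto⟩ := hx β hβ hβ'
    obtain ⟨c, hc⟩ := hodx f hf
    refine ⟨c, ?_, ?_⟩
    · intro a ha
      obtain ⟨ξ, hξ, hξa⟩ := honto a ha
      exact ⟨ξ, hξ, (hc a (ha.trans hβ') ξ (hξ.trans hLK)).2 hξa⟩
    · intro ξ hξ a ha a' ha' h h'
      have e1 := (hc a (ha.trans hβ') ξ (hξ.trans hLK)).1 h
      have e2 := (hc a' (ha'.trans hβ') ξ (hξ.trans hLK)).1 h'
      obtain ⟨w, -, huw⟩ := hfun.2 ξ.toZFSet (toZFSet_mem_toZFSet_iff.2 hξ)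
      exact toZFSet_injective ((huw _ e1).trans (huw _ e2).symm)
  have hmin : ∀ β, L.ord < β → β < (succ L).ord → ∃ c, Gx en L.ord x β c ∧
      ∀ c' < c, ¬ Gx en L.ord x β c' := by
    intro β hβ hβ'
    obtain ⟨c, hc, hm⟩ := WellFounded.has_min (wellFounded_lt (α := Ordinal.{u}))
      {c | Gx en L.ord x β c} (hgood β hβ hβ')
    exact ⟨c, hc, fun c' hc' h => hm c' h hc'⟩
  -- one row of the matrix consists of disjoint sets
  have hR2 : ∀ ξ < L.ord, ∀ b a a', Rx en L.ord x b ξ a → Rx en L.ord x b ξ a' → a = a' := by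
    rintro ξ hξ b a a' ⟨c, ⟨hc, hcm⟩, hab, hac⟩ ⟨c', ⟨hc', hcm'⟩, hab', hac'⟩
    have e : c = c' := by
      rcases lt_trichotomy c c' with h | h | h
      · exact absurd hc (hcm' c h)
      · exact h
      · exact absurd hc' (hcm c' h)
    subst e
    exact hc.2 ξ hξ a hab a' hab' hac hac'
  -- one column covers a final segment
  have hcov : ∀ a < (succ L).ord, ∃ ξ < L.ord, a ∈ Ax en L.ord M.ord (succ L).ord x ξ := by
    intro a ha
    by_contra hno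
    push Not at hno
    refine HD.All.va M.ord (succ L).ord (by rw [hreg.cof_ord]; exact hunc) L.ord
      (by rw [Cardinal.card_ord, hreg.cof_ord]; exact Order.lt_succ L)
      (fun ξ => {b | Rx en L.ord x b ξ a}) (fun ξ hξ => hno ξ hξ) ?_
    intro C hC
    have hC' : Clb (succ L).ord (C ∩ Ioi (max a L.ord)) := by
      refine ⟨fun y hy => ?_, fun y hy hy0 h => ?_⟩
      · obtain ⟨b, hb, hb1, hb2⟩ := hC.unb (max y (max a L.ord)) (max_lt hy (max_lt ha hLK))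
        exact ⟨b, hb, (le_max_left _ _).trans_lt hb1, hb2,
          Set.mem_Ioi.2 ((le_max_right _ _).trans_lt hb1)⟩
      · refine ⟨hC.cls y hy hy0 fun v hv => ?_, ?_⟩
        · obtain ⟨z, hz, hyz, hzC⟩ := h v hv
          exact ⟨z, hz, hyz, hzC.1⟩
        · obtain ⟨z, hz, -, hzC⟩ := h 0 hy0
          exact lt_trans hzC.2 hz
    obtain ⟨b, hb, hbC, -, hbf⟩ := HD.All.vc M (succ L).ord hM
      (by rw [hreg.cof_ord]; exact hML.trans (Order.lt_succ L)) _ hC'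
    have hba : max a L.ord < b := hbC.2
    have hLb : L.ord < b := (le_max_right _ _).trans_lt hba
    have hab : a < b := (le_max_left _ _).trans_lt hba
    obtain ⟨c, hc, hm⟩ := hmin b hLb hb
    obtain ⟨ξ, hξ, hξc⟩ := hc.1 a hab
    exact ⟨b, hb, hbC.1, ⟨ξ, hξ, c, ⟨hc, hm⟩, hab, hξc⟩, hbf⟩
  -- one row has unboundedly many positive entries
  have hrow : ∃ ξ < L.ord, ∀ β < (succ L).ord, ∃ a, β < a ∧ a < (succ L).ord ∧
      a ∈ Ax en L.ord M.ord (succ L).ord x ξ := by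
    by_contra hno
    push Not at hno
    choose! η hη hη2 using hno
    obtain ⟨s, hs, hsb⟩ := Pool.Agent.H3.HD.exists_bound (ρ := (succ L).ord) (τ := L.ord)
      (by rw [Cardinal.card_ord, hreg.cof_ord]; exact Order.lt_succ L) η (fun n hn => hη n hn)
    have hs1 : s + 1 < (succ L).ord := hlim.add_one_lt hs
    obtain ⟨n, hn, hna⟩ := hcov (s + 1) hs1
    exact hη2 n hn (s + 1) ((hsb n hn).trans_lt (lt_add_one _)) hs1 hna
  obtain ⟨ξ, hξ, hrow⟩ := hrow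
  obtain ⟨-, -, -, hv4⟩ := HD.All.vh.{u} (Ax en L.ord M.ord (succ L).ord x ξ)
  have hnth : ∀ i < L.ord, ∃ a, nth (Ax en L.ord M.ord (succ L).ord x ξ) i a := by
    rcases hv4 L.ord with h | h
    · exfalso
      obtain ⟨τ, hτ, e, he⟩ := h
      obtain ⟨s, hs, hsb⟩ := Pool.Agent.H3.HD.exists_bound (ρ := (succ L).ord) (τ := τ)
        (by rw [hreg.cof_ord]; exact (lt_ord.1 hτ).trans (Order.lt_succ L))
        (fun i => if e i < (succ L).ord then e i else 0) (fun i _ => by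
          by_cases h : e i < (succ L).ord
          · rw [if_pos h]
            exact h
          · rw [if_neg h]
            exact hlim.bot_lt)
      obtain ⟨a, ha1, ha2, ha3⟩ := hrow s hs
      obtain ⟨i, hi, rfl⟩ := he a ha3
      have := hsb i hi
      rw [if_pos ha2] at this
      exact absurd ha1 (not_lt.2 this)
    · exact h
  refine ⟨Px en L.ord M.ord (succ L).ord, px_dx h1 h2 h3 hen _ _ _, ξ, ?_, ?_⟩
  · intro i hi
    obtain ⟨a, ha⟩ := hnth i hi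
    intro C hC
    obtain ⟨b, hb, hbC, hbR, hbf⟩ := ha.1 C hC
    exact ⟨b, hb, hbC, ⟨a, ha, hbR⟩, hbf⟩
  · rintro b i i' ⟨a, ha, hb⟩ ⟨a', ha', hb'⟩
    have e : a = a' := hR2 ξ hξ b a a' hb hb'
    subst e
    exact nth_idx ha ha'

end Pool.Agent.H43.SD.UX
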